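import Mathlib

/-!
# SNU, module Sp (helper92): six small groups with a generating set whose sums miss one element (MP_ec93d3_co)
-/

set_option autoImplicit false

namespace Pool.Agent.SNU

/-- all sums of sublists -/
def FL {Z : Type} [AddCommGroup Z] [DecidableEq Z] : List Z → Finset Z
  | [] => {0}
  | a :: l => FL l ∪ (FL l).image (fun z => a + z)

theorem mem_FL {Z : Type} [AddCommGroup Z] [DecidableEq Z] (l : List Z) :
    ∀ B : Finset Z, (∀ b ∈ B, b ∈ l) → ∑ b ∈ B, b ∈ FL l := by
  induction l with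
  | nil =>
    intro B hB
    have h1 : B = ∅ := Finset.eq_empty_of_forall_notMem fun b hb => List.not_mem_nil (hB b hb)
    rw [h1, Finset.sum_empty]
    exact Finset.mem_singleton_self _
  | cons a l ih =>
    intro B hB
    unfold FL
    by_cases ha : a ∈ B
    · have h1 := ih (B.erase a) (fun b hb => by
        have h2 := hB b (Finset.mem_of_mem_erase hb)
        rcases List.mem_cons.1 h2 with h3 | h3
        · exact absurd h3 (Finset.ne_of_mem_erase hb)
        · exact h3)
      rw [← Finset.add_sum_erase B (fun b => b) ha]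
      exact Finset.mem_union_right _ (Finset.mem_image_of_mem _ h1)
    · have h1 := ih B (fun b hb => by
        rcases List.mem_cons.1 (hB b hb) with h3 | h3
        · exact absurd (h3 ▸ hb) ha
        · exact h3)
      exact Finset.mem_union_left _ h1

/-- sums of members are in the subgroup -/
theorem FL_cl {Z : Type} [AddCommGroup Z] [DecidableEq Z] (l : List Z) :
    ∀ z ∈ FL l, z ∈ AddSubgroup.closure (l.toFinset : Set Z) := by
  induction l with
  | nil =>
    intro z hz
    rw [Finset.mem_singleton.1 hz]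
    exact AddSubgroup.zero_mem _
  | cons a l ih =>
    intro z hz
    have hmono : AddSubgroup.closure (l.toFinset : Set Z) ≤
        AddSubgroup.closure ((a :: l).toFinset : Set Z) := by
      apply AddSubgroup.closure_mono
      intro w hw
      rw [Finset.mem_coe, List.mem_toFinset] at hw ⊢
      exact List.mem_cons_of_mem a hw
    unfold FL at hz
    rcases Finset.mem_union.1 hz with h1 | h1
    · exact hmono (ih z h1)
    · obtain ⟨w, hw, rfl⟩ := Finset.mem_image.1 h1
      refine AddSubgroup.add_mem _ (AddSubgroup.subset_closure ?_) (hmono (ih w hw))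
      rw [Finset.mem_coe, List.mem_toFinset]
      exact List.mem_cons_self

/-- the properties of the list `l` -/
def Good {Z : Type} [AddCommGroup Z] [DecidableEq Z] (l : List Z) (t v : ℕ) : Prop :=
  l.Nodup ∧ (0 : Z) ∉ l ∧ l.length = t ∧ (FL l).card ≤ v ∧
    AddSubgroup.closure (l.toFinset : Set Z) = ⊤

theorem good_mk {Z : Type} [AddCommGroup Z] [DecidableEq Z] [Fintype Z] (l : List Z) (t v : ℕ)
    (h1 : l.Nodup) (h2 : (0 : Z) ∉ l) (h3 : l.length = t) (h4 : (FL l).card ≤ v)
    (h5 : ∀ z : Z, ∃ a ∈ FL l, ∃ b ∈ FL l, a + b = z) : Good l t v := by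
  refine ⟨h1, h2, h3, h4, ?_⟩
  rw [eq_top_iff]
  intro z _
  obtain ⟨a, ha, b, hb, rfl⟩ := h5 z
  exact AddSubgroup.add_mem _ (FL_cl l a ha) (FL_cl l b hb)

theorem good24 : ∃ l : List (ZMod 2 × ZMod 4), Good l 4 7 :=
  ⟨[(0, 1), (0, 3), (1, 1), (1, 3)], good_mk _ _ _ (by decide) (by decide) (by decide)
    (by decide +kernel) (by decide +kernel)⟩

theorem good33 : ∃ l : List (ZMod 3 × ZMod 3), Good l 4 8 :=
  ⟨[(1, 0), (0, 1), (1, 1), (2, 1)], good_mk _ _ _ (by decide) (by decide) (by decide)
    (by decide +kernel) (by decide +kernel)⟩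

theorem good44 : ∃ l : List (ZMod 4 × ZMod 4), Good l 6 15 :=
  ⟨[(1, 0), (0, 1), (0, 3), (1, 1), (3, 3), (1, 2)], good_mk _ _ _ (by decide) (by decide)
    (by decide) (by decide +kernel) (by decide +kernel)⟩

theorem good224 : ∃ l : List (ZMod 2 × ZMod 2 × ZMod 4), Good l 6 15 :=
  ⟨[(0, 0, 1), (0, 0, 3), (1, 0, 1), (1, 0, 3), (0, 1, 1), (0, 1, 3)], good_mk _ _ _ (by decide)
    (by decide) (by decide) (by decide +kernel) (by decide +kernel)⟩

theorem good36 : ∃ l : List (ZMod 3 × ZMod 6), Good l 7 17 :=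
  ⟨[(1, 0), (0, 1), (0, 5), (1, 1), (2, 5), (2, 1), (1, 5)], good_mk _ _ _ (by decide) (by decide)
    (by decide) (by decide +kernel) (by decide +kernel)⟩

theorem good48 : ∃ l : List (ZMod 4 × ZMod 8), Good l 10 31 :=
  ⟨[(1, 0), (3, 0), (0, 1), (0, 7), (1, 1), (3, 7), (2, 1), (2, 7), (3, 1), (1, 7)],
    good_mk _ _ _ (by decide) (by decide) (by decide) (by decide +kernel) (by decide +kernel)⟩

end Pool.Agent.SNU
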