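import Pool.Agent.SNU.Ub
import Pool.Agent.SNU.Sp
import Pool.Agent.SNR.Ga

/-!
# SNU, module Upx (helper92): the upper bound with the exceptional values, final form (MP_ec93d3_co)

`upx G m` is the least of `|G|`, the values `valr m H` of the subgroups `H ≠ G` and the exceptional values `Exc G m`.
`rho_le_upx`: `rho G m ≤ upx G m` for every finite abelian group with `rank G ≤ m < |G|`.
-/

set_option autoImplicit false

noncomputable section

open Finset Pool.Agent.Helper64.Rho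
open scoped Classical Pointwise

namespace Pool.Agent.SNU

open Pool.Agent.SDG Pool.Agent.SNW Pool.Agent.SNR

/-- the six groups with a generating set of `t` nonzero elements with `v = |H| - 1` sums -/
def Spo (H : Type) [AddCommGroup H] (t v : ℕ) : Prop :=
  (Nonempty (H ≃+ ZMod 2 × ZMod 4) ∧ t = 4 ∧ v = 7) ∨
  (Nonempty (H ≃+ ZMod 3 × ZMod 3) ∧ t = 4 ∧ v = 8) ∨
  (Nonempty (H ≃+ ZMod 4 × ZMod 4) ∧ t = 6 ∧ v = 15) ∨
  (Nonempty (H ≃+ ZMod 2 × ZMod 2 × ZMod 4) ∧ t = 6 ∧ v = 15) ∨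
  (Nonempty (H ≃+ ZMod 3 × ZMod 6) ∧ t = 7 ∧ v = 17) ∨
  (Nonempty (H ≃+ ZMod 4 × ZMod 8) ∧ t = 10 ∧ v = 31)

section
variable {G : Type} [AddCommGroup G] [Finite G]

omit [Finite G] in
theorem transfer {Z : Type} [AddCommGroup Z] (dZ : DecidableEq Z) (H : AddSubgroup G) (e : H ≃+ Z)
    (l : List Z) (t v : ℕ) (hl : @Good Z _ dZ l t v) :
    ∃ B : Finset G, (0 : G) ∉ B ∧ B.card = t ∧ AddSubgroup.closure (B : Set G) = H ∧
      (FS B id).card ≤ v := by
  obtain ⟨h1, h2, h3, h4, h5⟩ := hl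
  obtain ⟨φ, hφ⟩ : ∃ φ : Z →+ G, φ = H.subtype.comp e.symm.toAddMonoidHom := ⟨_, rfl⟩
  have hinj : Function.Injective φ := by
    rw [hφ]
    exact H.subtype_injective.comp e.symm.injective
  have hr : φ.range = H := by
    rw [hφ]
    ext x
    rw [AddMonoidHom.mem_range]
    constructor
    · rintro ⟨z, rfl⟩
      exact (e.symm z).2
    · intro hx
      refine ⟨e ⟨x, hx⟩, ?_⟩
      simp
  obtain ⟨A, hA⟩ : ∃ A : Finset Z, A = @List.toFinset Z dZ l := ⟨_, rfl⟩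
  have hmA : ∀ z, z ∈ A ↔ z ∈ l := by
    intro z
    rw [hA]
    exact List.mem_toFinset
  refine ⟨A.image φ, ?_, ?_, ?_, ?_⟩
  · intro h6
    obtain ⟨z, hz, hz0⟩ := mem_image.1 h6
    have h7 : z = 0 := hinj (by rw [hz0, map_zero])
    rw [h7, hmA] at hz
    exact h2 hz
  · rw [card_image_of_injective _ hinj, ← h3, hA]
    exact List.toFinset_card_of_nodup h1
  · have h6 : AddSubgroup.closure (A : Set Z) = ⊤ := by
      rw [hA]
      exact h5
    rw [coe_image, ← AddMonoidHom.map_closure, h6, ← AddMonoidHom.range_eq_map, hr]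
  · refine le_trans ?_ h4
    have h6 : FS (A.image φ) id ⊆ (FL l).image φ := by
      intro x hx
      obtain ⟨B, hB, rfl⟩ := mem_FS.1 hx
      obtain ⟨C, hC⟩ : ∃ C : Finset Z, C = A.filter (fun z => φ z ∈ B) := ⟨_, rfl⟩
      have hCB : C.image φ = B := by
        ext y
        rw [mem_image]
        constructor
        · rintro ⟨z, hz, rfl⟩
          rw [hC, mem_filter] at hz
          exact hz.2
        · intro hy
          obtain ⟨z, hz, rfl⟩ := mem_image.1 (hB hy)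
          refine ⟨z, ?_, rfl⟩
          rw [hC, mem_filter]
          exact ⟨hz, hy⟩
      refine mem_image.2 ⟨∑ z ∈ C, z, ?_, ?_⟩
      · apply mem_FL
        intro b hb
        rw [hC, mem_filter] at hb
        exact (hmA b).1 hb.1
      · rw [map_sum, ← hCB, sum_image (fun a _ b _ h => hinj h)]
        rfl
    exact (card_le_card h6).trans card_image_le

omit [Finite G] in
theorem Spo_set (H : AddSubgroup G) (t v : ℕ) (h : Spo H t v) :
    ∃ B : Finset G, (0 : G) ∉ B ∧ B.card = t ∧ AddSubgroup.closure (B : Set G) = H ∧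
      (FS B id).card ≤ v := by
  rcases h with ⟨⟨e⟩, rfl, rfl⟩ | ⟨⟨e⟩, rfl, rfl⟩ | ⟨⟨e⟩, rfl, rfl⟩ | ⟨⟨e⟩, rfl, rfl⟩ |
    ⟨⟨e⟩, rfl, rfl⟩ | ⟨⟨e⟩, rfl, rfl⟩
  · obtain ⟨l, hl⟩ := good24
    exact transfer _ H e l _ _ hl
  · obtain ⟨l, hl⟩ := good33
    exact transfer _ H e l _ _ hl
  · obtain ⟨l, hl⟩ := good44
    exact transfer _ H e l _ _ hl
  · obtain ⟨l, hl⟩ := good224
    exact transfer _ H e l _ _ hl
  · obtain ⟨l, hl⟩ := good36
    exact transfer _ H e l _ _ hl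
  · obtain ⟨l, hl⟩ := good48
    exact transfer _ H e l _ _ hl

end

/-- the rank -/
def rk (G : Type) [AddCommGroup G] [Finite G] : ℕ := crk (⊥ : AddSubgroup G)

/-- the exceptional values -/
def Exc (G : Type) [AddCommGroup G] [Finite G] (m v : ℕ) : Prop :=
  (2 ≤ rk G ∧ m = rk G + 2 ∧ v = 9 * 2 ^ (rk G - 2)) ∨
  (2 ≤ rk G ∧ m = rk G + 4 ∧ v = 19 * 2 ^ (rk G - 2)) ∨
  (3 ≤ rk G ∧ m = rk G + 3 ∧ v = 27 * 2 ^ (rk G - 3)) ∨
  (∃ H : AddSubgroup G, ∃ t w : ℕ, Spo H t w ∧ m = t + crk H ∧ v = w * 2 ^ crk H)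

/-- the bound -/
def upx (G : Type) [AddCommGroup G] [Finite G] (m : ℕ) : ℕ :=
  sInf ({Nat.card G} ∪ {v | ∃ H : AddSubgroup G, H ≠ ⊤ ∧ v = valr m H} ∪ {v | Exc G m v})

/-- a set for every exceptional value -/
theorem thm_Exc {G : Type} [AddCommGroup G] [Finite G] (m v : ℕ) (hmn : m < Nat.card G)
    (h : Exc G m v) :
    ∃ A : Finset G, (0 : G) ∉ A ∧ A.card = m ∧ AddSubgroup.closure (A : Set G) = ⊤ ∧
      (FS A id).card ≤ v := by
  rcases h with ⟨h1, rfl, rfl⟩ | ⟨h1, rfl, rfl⟩ | ⟨h1, rfl, rfl⟩ | ⟨H, t, w, hH, rfl, rfl⟩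
  · exact U9 (rk G) rfl h1 hmn
  · exact U19 (rk G) rfl h1 hmn
  · exact U27 (rk G) rfl h1 hmn
  · obtain ⟨B, b1, b2, b3, b4⟩ := Spo_set H t w hH
    obtain ⟨A, a1, a2, a3, a4⟩ := Ext H B b1 b3
    refine ⟨A, a1, by rw [a2, b2], a3, a4.trans ?_⟩
    rw [Nat.mul_comm]
    exact Nat.mul_le_mul_right _ b4

/-- **The upper bound for all finite abelian groups, with the exceptional values.** -/
theorem rho_le_upx (hGa : St_Ga) {G : Type} [AddCommGroup G] [Finite G] (m : ℕ)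
    (hm : crk (⊥ : AddSubgroup G) ≤ m) (hmn : m < Nat.card G) :
    (sizes G m).Nonempty ∧ rho G m ≤ upx G m := by
  have key : ∃ A : Finset G, (0 : G) ∉ A ∧ A.card = m ∧ AddSubgroup.closure (A : Set G) = ⊤ ∧
      (FS A id).card ≤ upx G m := by
    have h1 : upx G m ∈ ({Nat.card G} ∪ {v | ∃ H : AddSubgroup G, H ≠ ⊤ ∧ v = valr m H} ∪
        {v | Exc G m v} : Set ℕ) := Nat.sInf_mem ⟨_, Or.inl (Or.inl rfl)⟩
    rcases h1 with (h1 | ⟨H, hH, h1⟩) | h1
    · exact triv_bd _ m _ rfl hm hmn (le_of_eq h1.symm)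
    · rw [h1]
      exact thm_UpR hGa m hm hmn H hH
    · exact thm_Exc m _ hmn h1
  obtain ⟨A, hA0, hAm, hAg, hA⟩ := key
  have h1 : (subsetSums A).ncard ∈ sizes G m := ⟨A, hA0, hAm, hAg, rfl⟩
  refine ⟨⟨_, h1⟩, (Nat.sInf_le h1).trans ?_⟩
  rw [ncard_subsetSums]
  exact hA

/-- the unconditional form -/
theorem ub_all {G : Type} [AddCommGroup G] [Finite G] (m : ℕ)
    (hm : crk (⊥ : AddSubgroup G) ≤ m) (hmn : m < Nat.card G) :
    (sizes G m).Nonempty ∧ rho G m ≤ upx G m :=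
  rho_le_upx (fun _ _ _ N R y hy x hx => gaschutz N R y hy x hx) m hm hmn

end Pool.Agent.SNU
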