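import Pool.Agent.SNR.UpR

/-!
# SNU, module Ub (helper92): the upper bound with the exceptional values (MP_ec93d3_co)

`rho_le_upx`: the bound `upr` of module `SNR.UpR` together with the values `9 * 2 ^ (r - 2)` at `m = r + 2`,
`19 * 2 ^ (r - 2)` at `m = r + 4`, `27 * 2 ^ (r - 3)` at `m = r + 3` (`r` the rank of `G`) and the values
`w * 2 ^ (rank G / H)` at `m = t + rank G / H` for the subgroups `H` isomorphic to one of six groups.
-/

set_option autoImplicit false

noncomputable section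

open Finset Pool.Agent.Helper64.Rho
open scoped Classical Pointwise

namespace Pool.Agent.SNU

open Pool.Agent.SDG Pool.Agent.SNW Pool.Agent.SNR

/-! ### the extension by independent elements -/

section
variable {G : Type} [AddCommGroup G] [Finite G]

/-- a generating set of `H` extended by `rank G / H` elements -/
theorem Ext (H : AddSubgroup G) (B : Finset G) (h0 : (0 : G) ∉ B)
    (hB : AddSubgroup.closure (B : Set G) = H) :
    ∃ A : Finset G, (0 : G) ∉ A ∧ A.card = B.card + crk H ∧ AddSubgroup.closure (A : Set G) = ⊤ ∧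
      (FS A id).card ≤ 2 ^ crk H * (FS B id).card := by
  obtain ⟨S, hS, hSg⟩ := exists_crk H
  have hn : ∀ z ∈ S, z ∉ H := by
    intro z hz hzH
    have h1 : H ⊔ AddSubgroup.closure ((S.erase z : Finset G) : Set G) = ⊤ := by
      rw [eq_top_iff, ← hSg]
      apply sup_le le_sup_left
      rw [AddSubgroup.closure_le]
      intro w hw
      by_cases h2 : w = z
      · rw [h2]
        exact AddSubgroup.mem_sup_left hzH
      · exact AddSubgroup.mem_sup_right (AddSubgroup.subset_closure (mem_coe.2 (mem_erase.2 ⟨h2, hw⟩)))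
    have h2 := crk_le h1
    rw [card_erase_of_mem hz, ← hS] at h2
    have h3 : 0 < S.card := card_pos.2 ⟨z, hz⟩
    omega
  have hd : Disjoint B S := by
    rw [disjoint_left]
    intro z hz hz'
    exact hn z hz' (hB ▸ AddSubgroup.subset_closure (mem_coe.2 hz))
  refine ⟨B ∪ S, ?_, ?_, ?_, ?_⟩
  · rw [mem_union, not_or]
    exact ⟨h0, fun h1 => hn 0 h1 H.zero_mem⟩
  · rw [card_union_of_disjoint hd, hS]
  · rw [coe_union, AddSubgroup.closure_union, hB]
    exact hSg
  · rw [← hS]
    exact FS_union_le B S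

/-- the rank of `G` and the rank of a quotient by a subgroup with a given generating set -/
theorem crk_cl (S : Finset G) : crk (⊥ : AddSubgroup G) ≤ S.card + crk (AddSubgroup.closure (S : Set G)) := by
  obtain ⟨T, hT, hTg⟩ := exists_crk (AddSubgroup.closure (S : Set G))
  rw [← hT]
  refine (crk_le (S := S ∪ T) ?_).trans (card_union_le S T)
  rw [bot_sup_eq, coe_union, AddSubgroup.closure_union]
  exact hTg

theorem crk_part (H : AddSubgroup G) (S T : Finset G) (hS : AddSubgroup.closure (S : Set G) = ⊤)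
    (hT : ∀ t ∈ T, t ∈ H) (hTS : T ⊆ S) : crk H + T.card ≤ S.card := by
  have h1 : crk H ≤ (S \ T).card := by
    apply crk_le
    rw [eq_top_iff, ← hS, AddSubgroup.closure_le]
    intro z hz
    by_cases h2 : z ∈ T
    · exact AddSubgroup.mem_sup_left (hT z h2)
    · exact AddSubgroup.mem_sup_right (AddSubgroup.subset_closure
        (mem_coe.2 (mem_sdiff.2 ⟨mem_coe.1 hz, h2⟩)))
  have h2 := card_sdiff_add_card_eq_card hTS
  omega

/-- a group generated modulo `K` by `S` with `2 s ∈ K` -/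
theorem card_two (K : AddSubgroup G) (S : Finset G) (hg : K ⊔ AddSubgroup.closure (S : Set G) = ⊤)
    (h2 : ∀ s ∈ S, s + s ∈ K) : Nat.card G ≤ Nat.card K * 2 ^ S.card := by
  have := Fintype.ofFinite G
  obtain ⟨KF, hKF⟩ : ∃ KF : Finset G, KF = univ.filter (fun z => z ∈ K) := ⟨_, rfl⟩
  have hmK : ∀ z, z ∈ KF ↔ z ∈ K := by
    intro z
    rw [hKF]
    simp
  have hcK : KF.card = Nat.card K := by
    rw [hKF]
    have h3 : Nat.card K = Nat.card {z // z ∈ K} := rfl
    rw [h3, Nat.card_eq_fintype_card, Fintype.card_subtype]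
  obtain ⟨U, hU⟩ : ∃ U : Finset G, U = FS S id + KF := ⟨_, rfl⟩
  have hUs : ∀ s ∈ S, ∀ w ∈ U, s + w ∈ U := by
    intro s hs w hw
    rw [hU] at hw ⊢
    obtain ⟨u, hu, k, hk, rfl⟩ := mem_add.1 hw
    obtain ⟨B, hB, rfl⟩ := mem_FS.1 hu
    by_cases h3 : s ∈ B
    · refine mem_add.2 ⟨∑ i ∈ B.erase s, id i, mem_FS.2 ⟨B.erase s, (erase_subset _ _).trans hB, rfl⟩,
        (s + s) + k, ?_, ?_⟩
      · rw [hmK] at hk ⊢
        exact K.add_mem (h2 s hs) hk
      · rw [← add_sum_erase B id h3]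
        simp only [id]
        abel
    · refine mem_add.2 ⟨∑ i ∈ insert s B, id i, mem_FS.2 ⟨insert s B, insert_subset hs hB, rfl⟩,
        k, hk, ?_⟩
      rw [sum_insert h3]
      simp only [id]
      abel
  have hUK : ∀ k ∈ K, ∀ w ∈ U, k + w ∈ U := by
    intro k hk w hw
    rw [hU] at hw ⊢
    obtain ⟨u, hu, k', hk', rfl⟩ := mem_add.1 hw
    refine mem_add.2 ⟨u, hu, k + k', ?_, ?_⟩
    · rw [hmK] at hk' ⊢
      exact K.add_mem hk hk'
    · abel
  have hP : ∀ x ∈ K ⊔ AddSubgroup.closure (S : Set G), ∀ w ∈ U, x + w ∈ U ∧ -x + w ∈ U := by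
    intro x hx
    have h3 : K ⊔ AddSubgroup.closure (S : Set G) = AddSubgroup.closure ((K : Set G) ∪ (S : Set G)) := by
      rw [AddSubgroup.closure_union, AddSubgroup.closure_eq]
    rw [h3] at hx
    induction hx using AddSubgroup.closure_induction with
    | mem x hx =>
      intro w hw
      rcases hx with hx | hx
      · exact ⟨hUK x hx w hw, hUK (-x) (K.neg_mem hx) w hw⟩
      · refine ⟨hUs x hx w hw, ?_⟩
        have h4 : -x + w = -(x + x) + (x + w) := by abel
        rw [h4]
        exact hUK _ (K.neg_mem (h2 x hx)) _ (hUs x hx w hw)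
    | zero =>
      intro w hw
      simpa using hw
    | add x y _ _ ihx ihy =>
      intro w hw
      constructor
      · rw [add_assoc]
        exact (ihx _ ((ihy w hw).1)).1
      · have h4 : -(x + y) + w = -x + (-y + w) := by abel
        rw [h4]
        exact (ihx _ ((ihy w hw).2)).2
    | neg x _ ih =>
      intro w hw
      rw [neg_neg]
      exact ⟨(ih w hw).2, (ih w hw).1⟩
  have h0 : (0 : G) ∈ U := by
    rw [hU]
    exact mem_add.2 ⟨0, mem_FS.2 ⟨∅, empty_subset _, rfl⟩, 0, (hmK 0).2 K.zero_mem, add_zero _⟩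
  have hall : ∀ z : G, z ∈ U := by
    intro z
    have h3 : z ∈ K ⊔ AddSubgroup.closure (S : Set G) := by
      rw [hg]
      exact AddSubgroup.mem_top z
    have h4 := (hP z h3 0 h0).1
    rwa [add_zero] at h4
  have h5 : Nat.card G ≤ U.card := by
    rw [Nat.card_eq_fintype_card, ← card_univ]
    exact card_le_card fun z _ => hall z
  have h6 : (FS S id).card ≤ 2 ^ S.card := by
    unfold FS
    refine card_image_le.trans ?_
    rw [card_powerset]
  calc Nat.card G ≤ U.card := h5
    _ ≤ (FS S id).card * KF.card := by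
      rw [hU]
      exact card_add_le
    _ ≤ 2 ^ S.card * KF.card := Nat.mul_le_mul_right _ h6
    _ = Nat.card K * 2 ^ S.card := by rw [hcK, Nat.mul_comm]

/-! ### pairs of opposite elements -/

theorem pm_card (z : G) (hz : z + z ≠ 0) : ({z, -z} : Finset G).card = 2 := by
  rw [card_pair]
  intro h1
  apply hz
  nth_rewrite 2 [h1]
  exact add_neg_cancel z

theorem FS_pm_card (z : G) : (FS ({z, -z} : Finset G) id).card ≤ 3 :=
  (card_le_card (FS_pm z)).trans (card_image_le.trans (by decide))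

theorem FS_un (A B : Finset G) (hd : Disjoint A B) :
    (FS (A ∪ B) id).card ≤ (FS A id).card * (FS B id).card :=
  (card_le_card (FS_union_sub A B _ _ hd (Subset.refl _) (Subset.refl _))).trans card_add_le

/-- `{x, -x}` and a set in a subgroup without `x` -/
theorem pm_disj (H : AddSubgroup G) (x : G) (hx : x ∉ H) (B : Finset G) (hB : ∀ b ∈ B, b ∈ H) :
    Disjoint B ({x, -x} : Finset G) := by
  rw [disjoint_left]
  intro z hz hz'
  have h1 := hB z hz
  rcases mem_insert.1 hz' with rfl | h2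
  · exact hx h1
  · rw [mem_singleton] at h2
    apply hx
    rw [h2] at h1
    rw [← neg_neg x]
    exact H.neg_mem h1

theorem cl_pm (x : G) : AddSubgroup.closure (({x, -x} : Finset G) : Set G) = AddSubgroup.closure {x} := by
  apply le_antisymm
  · rw [AddSubgroup.closure_le]
    intro z hz
    rcases mem_insert.1 (mem_coe.1 hz) with rfl | h1
    · exact AddSubgroup.subset_closure (Set.mem_singleton _)
    · rw [mem_singleton] at h1
      rw [h1]
      exact AddSubgroup.neg_mem _ (AddSubgroup.subset_closure (Set.mem_singleton _))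
  · apply AddSubgroup.closure_mono
    intro z hz
    rw [Set.mem_singleton_iff] at hz
    rw [hz]
    simp

/-! ### the three values -/

theorem ne_of_pm (x : G) (hx : x + x ≠ 0) : x ≠ 0 := by
  rintro rfl
  exact hx (add_zero 0)

theorem zero_pm (x : G) (hx : x + x ≠ 0) : (0 : G) ∉ ({x, -x} : Finset G) := by
  have h1 := ne_of_pm x hx
  intro h2
  rcases mem_insert.1 h2 with h3 | h3
  · exact h1 h3.symm
  · rw [mem_singleton] at h3
    exact h1 (neg_eq_zero.1 h3.symm)

theorem cl_two (x y : G) : AddSubgroup.closure ({x, y} : Set G) =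
    AddSubgroup.closure {x} ⊔ AddSubgroup.closure {y} := by
  rw [← AddSubgroup.closure_union]
  rfl

/-- the independence of two elements -/
theorem ind_two (x y : G) (hc : crk (AddSubgroup.closure {x, y}) + 2 ≤ crk (⊥ : AddSubgroup G)) :
    y ∉ AddSubgroup.closure {x} := by
  intro h1
  have h2 : AddSubgroup.closure ({x, y} : Set G) = AddSubgroup.closure (({x} : Finset G) : Set G) := by
    rw [coe_singleton, cl_two, sup_eq_left, AddSubgroup.closure_le]
    intro z hz
    rw [Set.mem_singleton_iff] at hz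
    rw [hz]
    exact h1
  have h3 := crk_cl ({x} : Finset G)
  rw [← h2, card_singleton] at h3
  omega

theorem pair_comm' (x y : G) : ({x, y} : Set G) = {y, x} := Set.pair_comm x y

/-- four elements -/
theorem core9 (x y : G) (hx : x + x ≠ 0) (hy : y + y ≠ 0)
    (hc : crk (AddSubgroup.closure {x, y}) + 2 ≤ crk (⊥ : AddSubgroup G)) :
    (0 : G) ∉ ({x, -x} ∪ {y, -y} : Finset G) ∧ ({x, -x} ∪ {y, -y} : Finset G).card = 4 ∧
      AddSubgroup.closure (({x, -x} ∪ {y, -y} : Finset G) : Set G) = AddSubgroup.closure {x, y} ∧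
      (FS ({x, -x} ∪ {y, -y} : Finset G) id).card ≤ 9 ∧ Disjoint ({x, -x} : Finset G) {y, -y} := by
  have hd : Disjoint ({x, -x} : Finset G) {y, -y} := by
    refine pm_disj (AddSubgroup.closure {x}) y (ind_two x y hc) _ fun b hb => ?_
    rw [← cl_pm]
    exact AddSubgroup.subset_closure (mem_coe.2 hb)
  refine ⟨?_, ?_, ?_, ?_, hd⟩
  · rw [mem_union, not_or]
    exact ⟨zero_pm x hx, zero_pm y hy⟩
  · rw [card_union_of_disjoint hd, pm_card x hx, pm_card y hy]
  · rw [coe_union, AddSubgroup.closure_union, cl_pm, cl_pm, cl_two]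
  · refine (FS_un _ _ hd).trans ?_
    have h1 := FS_pm_card x
    have h2 := FS_pm_card y
    exact (Nat.mul_le_mul h1 h2)

/-- six elements, three pairs -/
theorem core27 (x y z : G) (hx : x + x ≠ 0) (hy : y + y ≠ 0) (hz : z + z ≠ 0)
    (hc : crk (AddSubgroup.closure {x, y} ⊔ AddSubgroup.closure {z}) + 3 ≤ crk (⊥ : AddSubgroup G)) :
    ∃ B : Finset G, (0 : G) ∉ B ∧ B.card = 6 ∧
      AddSubgroup.closure (B : Set G) = AddSubgroup.closure {x, y} ⊔ AddSubgroup.closure {z} ∧
      (FS B id).card ≤ 27 := by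
  have h1 : crk (AddSubgroup.closure ({x, y} : Set G)) ≤
      crk (AddSubgroup.closure {x, y} ⊔ AddSubgroup.closure {z}) + 1 := by
    obtain ⟨T, hT, hTg⟩ := exists_crk (AddSubgroup.closure ({x, y} : Set G) ⊔ AddSubgroup.closure {z})
    rw [← hT]
    refine (crk_le (S := insert z T) ?_).trans (card_insert_le z T)
    have h0 : AddSubgroup.closure ((insert z T : Finset G) : Set G) =
        AddSubgroup.closure {z} ⊔ AddSubgroup.closure (T : Set G) := by
      rw [coe_insert, ← AddSubgroup.closure_union]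
      rfl
    rw [h0, ← sup_assoc]
    exact hTg
  obtain ⟨a1, a2, a3, a4, a5⟩ := core9 x y hx hy (by omega)
  have hzn : z ∉ AddSubgroup.closure ({x, y} : Set G) := by
    intro h2
    have h3 : AddSubgroup.closure ({x, y} : Set G) ⊔ AddSubgroup.closure {z} =
        AddSubgroup.closure {x, y} := by
      rw [sup_eq_left, AddSubgroup.closure_le]
      intro w hw
      rw [Set.mem_singleton_iff] at hw
      rw [hw]
      exact h2
    rw [h3] at hc
    have h4 := crk_cl ({x, y} : Finset G)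
    have h5 : (({x, y} : Finset G) : Set G) = {x, y} := by simp
    rw [h5] at h4
    have h6 : ({x, y} : Finset G).card ≤ 2 := card_le_two
    omega
  have hd : Disjoint ({x, -x} ∪ {y, -y} : Finset G) {z, -z} := by
    refine pm_disj _ z hzn _ fun b hb => ?_
    rw [← a3]
    exact AddSubgroup.subset_closure (mem_coe.2 hb)
  refine ⟨({x, -x} ∪ {y, -y}) ∪ {z, -z}, ?_, ?_, ?_, ?_⟩
  · rw [mem_union, not_or]
    exact ⟨a1, zero_pm z hz⟩
  · rw [card_union_of_disjoint hd, a2, pm_card z hz]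
  · rw [coe_union, AddSubgroup.closure_union, a3, cl_pm]
  · refine (FS_un _ _ hd).trans ?_
    have h2 := FS_pm_card z
    exact (Nat.mul_le_mul a4 h2)

/-- six elements, the hexagon -/
theorem core19 (x y : G) (hx : x + x ≠ 0) (hy : y + y ≠ 0) (hxy : (x + y) + (x + y) ≠ 0)
    (hc : crk (AddSubgroup.closure {x, y}) + 2 ≤ crk (⊥ : AddSubgroup G)) :
    ∃ B : Finset G, (0 : G) ∉ B ∧ B.card = 6 ∧
      AddSubgroup.closure (B : Set G) = AddSubgroup.closure {x, y} ∧ (FS B id).card ≤ 19 := by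
  obtain ⟨a1, a2, a3, a4, a5⟩ := core9 x y hx hy hc
  have hxn := ind_two y x (by rw [pair_comm' y x]; exact hc)
  have hyn := ind_two x y hc
  have hx1 : x ∈ AddSubgroup.closure ({x} : Set G) := AddSubgroup.subset_closure rfl
  have hy1 : y ∈ AddSubgroup.closure ({y} : Set G) := AddSubgroup.subset_closure rfl
  have hd : Disjoint ({x, -x} ∪ {y, -y} : Finset G) {x + y, -(x + y)} := by
    have d1 : Disjoint ({x, -x} : Finset G) {x + y, -(x + y)} := by
      refine pm_disj (AddSubgroup.closure {x}) (x + y) ?_ _ fun b hb => ?_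
      · intro h1
        apply hyn
        have h2 : y = (x + y) - x := by abel
        rw [h2]
        exact AddSubgroup.sub_mem _ h1 hx1
      · rw [← cl_pm]
        exact AddSubgroup.subset_closure (mem_coe.2 hb)
    have d2 : Disjoint ({y, -y} : Finset G) {x + y, -(x + y)} := by
      refine pm_disj (AddSubgroup.closure {y}) (x + y) ?_ _ fun b hb => ?_
      · intro h1
        apply hxn
        have h2 : x = (x + y) - y := by abel
        rw [h2]
        exact AddSubgroup.sub_mem _ h1 hy1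
      · rw [← cl_pm]
        exact AddSubgroup.subset_closure (mem_coe.2 hb)
    exact disjoint_union_left.2 ⟨d1, d2⟩
  refine ⟨({x, -x} ∪ {y, -y}) ∪ {x + y, -(x + y)}, ?_, ?_, ?_, ?_⟩
  · rw [mem_union, not_or]
    exact ⟨a1, zero_pm _ hxy⟩
  · rw [card_union_of_disjoint hd, a2, pm_card _ hxy]
  · rw [coe_union, AddSubgroup.closure_union, a3, cl_pm, sup_eq_left, AddSubgroup.closure_le]
    intro z hz
    rw [Set.mem_singleton_iff] at hz
    rw [hz, cl_two]
    exact AddSubgroup.add_mem _ (AddSubgroup.mem_sup_left hx1) (AddSubgroup.mem_sup_right hy1)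
  · have h4 := FS_union_sub _ _ _ _ hd (FS_union_sub _ _ _ _ a5 (FS_pm x) (FS_pm y))
      (FS_pm (x + y))
    have h5 : ((Icc (-1 : ℤ) 1).image (fun k : ℤ => k • x) +
        (Icc (-1 : ℤ) 1).image (fun k : ℤ => k • y)) +
        (Icc (-1 : ℤ) 1).image (fun k : ℤ => k • (x + y)) ⊆
        gridset x y (((Icc (-1 : ℤ) 1) ×ˢ ((Icc (-1 : ℤ) 1) ×ˢ (Icc (-1 : ℤ) 1))).image
          fun r => (r.1 + r.2.2, r.2.1 + r.2.2)) := by
      intro z hz
      obtain ⟨w, hw, c, hc, rfl⟩ := mem_add.1 hz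
      obtain ⟨a, ha, b, hb, rfl⟩ := mem_add.1 hw
      obtain ⟨i, hi, rfl⟩ := mem_image.1 ha
      obtain ⟨j, hj, rfl⟩ := mem_image.1 hb
      obtain ⟨k, hk, rfl⟩ := mem_image.1 hc
      refine mem_image.2 ⟨(i + k, j + k), mem_image.2 ⟨(i, j, k), ?_, rfl⟩, ?_⟩
      · exact mem_product.2 ⟨hi, mem_product.2 ⟨hj, hk⟩⟩
      · simp only [add_smul, smul_add]
        abel
    refine (card_le_card (h4.trans h5)).trans (card_image_le.trans ?_)
    decide

/-- the choice of a second element of order at least `3` -/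
theorem snd_elt (x y : G) (hx : x + x ≠ 0) : ∃ w : G, w + w ≠ 0 ∧
    y ∈ AddSubgroup.closure ({x, w} : Set G) ∧ w - y ∈ AddSubgroup.closure ({x} : Set G) := by
  by_cases hy : y + y = 0
  · refine ⟨y + x, ?_, ?_, ?_⟩
    · have h1 : y + x + (y + x) = (y + y) + (x + x) := by abel
      rw [h1, hy, zero_add]
      exact hx
    · have h1 : y = (y + x) - x := by abel
      have h3 : y + x ∈ AddSubgroup.closure ({x, y + x} : Set G) :=
        AddSubgroup.subset_closure (by simp)
      have h4 : x ∈ AddSubgroup.closure ({x, y + x} : Set G) :=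
        AddSubgroup.subset_closure (by simp)
      have h5 := AddSubgroup.sub_mem _ h3 h4
      rwa [← h1] at h5
    · have h1 : y + x - y = x := by abel
      rw [h1]
      exact AddSubgroup.subset_closure rfl
  · refine ⟨y, hy, AddSubgroup.subset_closure (by simp), ?_⟩
    rw [sub_self]
    exact AddSubgroup.zero_mem _

theorem triv_bd (r m v : ℕ) (hr : crk (⊥ : AddSubgroup G) = r) (hm : r ≤ m) (hmn : m < Nat.card G)
    (hv : Nat.card G ≤ v) : ∃ A : Finset G, (0 : G) ∉ A ∧ A.card = m ∧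
      AddSubgroup.closure (A : Set G) = ⊤ ∧ (FS A id).card ≤ v := by
  have := Fintype.ofFinite G
  obtain ⟨A, hA0, hAm, hAg⟩ := ex_any (G := G) m (hr ▸ hm) hmn
  refine ⟨A, hA0, hAm, hAg, le_trans ?_ hv⟩
  rw [Nat.card_eq_fintype_card]
  exact card_le_univ _

theorem closure_pair_le {x y : G} {H : AddSubgroup G} (hx : x ∈ H) (hy : y ∈ H) :
    AddSubgroup.closure ({x, y} : Set G) ≤ H := by
  rw [AddSubgroup.closure_le]
  intro z hz
  rcases hz with rfl | hz
  · exact hx
  · rw [Set.mem_singleton_iff] at hz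
    rw [hz]
    exact hy

theorem U9 (r : ℕ) (hr : crk (⊥ : AddSubgroup G) = r) (h2 : 2 ≤ r) (hmn : r + 2 < Nat.card G) :
    ∃ A : Finset G, (0 : G) ∉ A ∧ A.card = r + 2 ∧ AddSubgroup.closure (A : Set G) = ⊤ ∧
      (FS A id).card ≤ 9 * 2 ^ (r - 2) := by
  obtain ⟨S, hS, hSg⟩ := exists_crk (⊥ : AddSubgroup G)
  rw [bot_sup_eq] at hSg
  rw [hr] at hS
  by_cases hE : ∀ s ∈ S, s + s = 0
  · apply triv_bd r (r + 2) _ hr (by omega) hmn
    have h3 := card_two (⊥ : AddSubgroup G) S (by rw [bot_sup_eq]; exact hSg)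
      (fun s hs => by rw [AddSubgroup.mem_bot]; exact hE s hs)
    rw [AddSubgroup.card_bot, one_mul, hS] at h3
    obtain ⟨q, rfl⟩ : ∃ q, r = q + 2 := ⟨r - 2, by omega⟩
    rw [Nat.add_sub_cancel]
    rw [pow_add] at h3
    omega
  push Not at hE
  obtain ⟨x, hxS, hx⟩ := hE
  obtain ⟨y, hyS, hyx⟩ := exists_mem_ne (by omega : 1 < S.card) x
  obtain ⟨w, hw, hyw, -⟩ := snd_elt x y hx
  have h3 := crk_part (AddSubgroup.closure ({x, w} : Set G)) S {x, y} hSg (by
    intro t ht
    rcases mem_insert.1 ht with rfl | ht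
    · exact AddSubgroup.subset_closure (by simp)
    · rw [mem_singleton] at ht
      rw [ht]
      exact hyw) (by
    intro t ht
    rcases mem_insert.1 ht with rfl | ht
    · exact hxS
    · rw [mem_singleton] at ht
      rw [ht]
      exact hyS)
  rw [card_pair hyx.symm, hS] at h3
  have h4 : crk (⊥ : AddSubgroup G) ≤ 2 + crk (AddSubgroup.closure ({x, w} : Set G)) := by
    have h5 := crk_cl ({x, w} : Finset G)
    have h6 : (({x, w} : Finset G) : Set G) = {x, w} := by simp
    rw [h6] at h5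
    have h7 : ({x, w} : Finset G).card ≤ 2 := card_le_two
    omega
  obtain ⟨a1, a2, a3, a4, -⟩ := core9 x w hx hw (by omega)
  obtain ⟨A, hA0, hAc, hAg, hAs⟩ := Ext _ _ a1 a3
  have h5 : crk (AddSubgroup.closure ({x, w} : Set G)) = r - 2 := by omega
  refine ⟨A, hA0, by rw [hAc, a2]; omega, hAg, hAs.trans ?_⟩
  rw [h5, Nat.mul_comm]
  exact Nat.mul_le_mul_right _ a4

theorem U27 (r : ℕ) (hr : crk (⊥ : AddSubgroup G) = r) (h2 : 3 ≤ r) (hmn : r + 3 < Nat.card G) :
    ∃ A : Finset G, (0 : G) ∉ A ∧ A.card = r + 3 ∧ AddSubgroup.closure (A : Set G) = ⊤ ∧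
      (FS A id).card ≤ 27 * 2 ^ (r - 3) := by
  obtain ⟨S, hS, hSg⟩ := exists_crk (⊥ : AddSubgroup G)
  rw [bot_sup_eq] at hSg
  rw [hr] at hS
  by_cases hE : ∀ s ∈ S, s + s = 0
  · apply triv_bd r (r + 3) _ hr (by omega) hmn
    have h3 := card_two (⊥ : AddSubgroup G) S (by rw [bot_sup_eq]; exact hSg)
      (fun s hs => by rw [AddSubgroup.mem_bot]; exact hE s hs)
    rw [AddSubgroup.card_bot, one_mul, hS] at h3
    obtain ⟨q, rfl⟩ : ∃ q, r = q + 3 := ⟨r - 3, by omega⟩
    rw [Nat.add_sub_cancel]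
    rw [pow_add] at h3
    omega
  push Not at hE
  obtain ⟨x, hxS, hx⟩ := hE
  obtain ⟨y, hyS, hyx⟩ := exists_mem_ne (by omega : 1 < S.card) x
  obtain ⟨z, hzS, hzy⟩ := exists_mem_ne (by rw [card_erase_of_mem hxS]; omega : 1 < (S.erase x).card) y
  obtain ⟨hzx, hzS⟩ := mem_erase.1 hzS
  obtain ⟨w, hw, hyw, -⟩ := snd_elt x y hx
  obtain ⟨u, hu, hzu, -⟩ := snd_elt x z hx
  obtain ⟨H, hH⟩ : ∃ H : AddSubgroup G, H = AddSubgroup.closure ({x, w} : Set G) ⊔
      AddSubgroup.closure {u} := ⟨_, rfl⟩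
  have hxH : x ∈ H := by
    rw [hH]
    exact AddSubgroup.mem_sup_left (AddSubgroup.subset_closure (by simp))
  have huH : u ∈ H := by
    rw [hH]
    exact AddSubgroup.mem_sup_right (AddSubgroup.subset_closure rfl)
  have hyH : y ∈ H := by
    rw [hH]
    exact AddSubgroup.mem_sup_left hyw
  have hzH : z ∈ H := closure_pair_le hxH huH hzu
  have h3 := crk_part H S {x, y, z} hSg (by
    intro t ht
    rw [mem_insert, mem_insert, mem_singleton] at ht
    rcases ht with rfl | rfl | rfl
    · exact hxH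
    · exact hyH
    · exact hzH) (by
    intro t ht
    rw [mem_insert, mem_insert, mem_singleton] at ht
    rcases ht with rfl | rfl | rfl
    · exact hxS
    · exact hyS
    · exact hzS)
  have hc3 : ({x, y, z} : Finset G).card = 3 := by
    rw [card_eq_three]
    exact ⟨x, y, z, hyx.symm, hzx.symm, hzy.symm, rfl⟩
  rw [hc3, hS] at h3
  have h4 : crk (⊥ : AddSubgroup G) ≤ 3 + crk H := by
    have h5 := crk_cl ({x, w, u} : Finset G)
    have h6 : AddSubgroup.closure (({x, w, u} : Finset G) : Set G) = H := by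
      rw [hH, ← AddSubgroup.closure_union]
      congr 1
      ext t
      simp
      tauto
    rw [h6] at h5
    have h7 : ({x, w, u} : Finset G).card ≤ 3 := card_le_three
    omega
  obtain ⟨B, a1, a2, a3, a4⟩ := core27 x w u hx hw hu (by rw [← hH]; omega)
  rw [← hH] at a3
  obtain ⟨A, hA0, hAc, hAg, hAs⟩ := Ext _ _ a1 a3
  have h5 : crk H = r - 3 := by omega
  refine ⟨A, hA0, by rw [hAc, a2]; omega, hAg, hAs.trans ?_⟩
  rw [h5, Nat.mul_comm]
  exact Nat.mul_le_mul_right _ a4

/-- the final step for `19` -/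
theorem U19_fin (r : ℕ) (hr : crk (⊥ : AddSubgroup G) = r) (h2 : 2 ≤ r) (S : Finset G)
    (hS : S.card = r) (hSg : AddSubgroup.closure (S : Set G) = ⊤) (x y w : G) (hxS : x ∈ S)
    (hyS : y ∈ S) (hyx : y ≠ x) (hx : x + x ≠ 0) (hw : w + w ≠ 0) (hxw : (x + w) + (x + w) ≠ 0)
    (hyw : y ∈ AddSubgroup.closure ({x, w} : Set G)) :
    ∃ A : Finset G, (0 : G) ∉ A ∧ A.card = r + 4 ∧ AddSubgroup.closure (A : Set G) = ⊤ ∧
      (FS A id).card ≤ 19 * 2 ^ (r - 2) := by
  have h3 := crk_part (AddSubgroup.closure ({x, w} : Set G)) S {x, y} hSg (by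
    intro t ht
    rcases mem_insert.1 ht with rfl | ht
    · exact AddSubgroup.subset_closure (by simp)
    · rw [mem_singleton] at ht
      rw [ht]
      exact hyw) (by
    intro t ht
    rcases mem_insert.1 ht with rfl | ht
    · exact hxS
    · rw [mem_singleton] at ht
      rw [ht]
      exact hyS)
  rw [card_pair hyx.symm, hS] at h3
  have h4 : crk (⊥ : AddSubgroup G) ≤ 2 + crk (AddSubgroup.closure ({x, w} : Set G)) := by
    have h5 := crk_cl ({x, w} : Finset G)
    have h6 : (({x, w} : Finset G) : Set G) = {x, w} := by simp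
    rw [h6] at h5
    have h7 : ({x, w} : Finset G).card ≤ 2 := card_le_two
    omega
  obtain ⟨B, a1, a2, a3, a4⟩ := core19 x w hx hw hxw (by omega)
  obtain ⟨A, hA0, hAc, hAg, hAs⟩ := Ext _ _ a1 a3
  have h5 : crk (AddSubgroup.closure ({x, w} : Set G)) = r - 2 := by omega
  refine ⟨A, hA0, by rw [hAc, a2]; omega, hAg, hAs.trans ?_⟩
  rw [h5, Nat.mul_comm]
  exact Nat.mul_le_mul_right _ a4

theorem U19 (r : ℕ) (hr : crk (⊥ : AddSubgroup G) = r) (h2 : 2 ≤ r) (hmn : r + 4 < Nat.card G) :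
    ∃ A : Finset G, (0 : G) ∉ A ∧ A.card = r + 4 ∧ AddSubgroup.closure (A : Set G) = ⊤ ∧
      (FS A id).card ≤ 19 * 2 ^ (r - 2) := by
  obtain ⟨S, hS, hSg⟩ := exists_crk (⊥ : AddSubgroup G)
  rw [bot_sup_eq] at hSg
  rw [hr] at hS
  by_cases hA : ∃ x ∈ S, (x + x) + (x + x) ≠ 0
  · obtain ⟨x, hxS, hx4⟩ := hA
    have hx : x + x ≠ 0 := fun h1 => hx4 (by rw [h1, add_zero])
    obtain ⟨y, hyS, hyx⟩ := exists_mem_ne (by omega : 1 < S.card) x
    obtain ⟨w, hw, hyw, -⟩ := snd_elt x y hx
    by_cases hxw : (x + w) + (x + w) = 0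
    · have hw' : -w + -w ≠ 0 := by
        intro h1
        apply hw
        have h3 : w + w = -(-w + -w) := by abel
        rw [h3, h1, neg_zero]
      refine U19_fin r hr h2 S hS hSg x y (-w) hxS hyS hyx hx hw' ?_ ?_
      · intro h1
        apply hx4
        have h3 : x + x + (x + x) = (x + w + (x + w)) + (x + -w + (x + -w)) := by abel
        rw [h3, hxw, h1, add_zero]
      · refine closure_pair_le ?_ ?_ hyw
        · exact AddSubgroup.subset_closure (by simp)
        · rw [← neg_neg w]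
          exact AddSubgroup.neg_mem _ (AddSubgroup.subset_closure (by simp))
    · exact U19_fin r hr h2 S hS hSg x y w hxS hyS hyx hx hw hxw hyw
  push Not at hA
  by_cases hB : ∃ x ∈ S, ∃ y ∈ S, x + x ≠ 0 ∧ y + y ≠ 0 ∧ x + x ≠ y + y
  · obtain ⟨x, hxS, y, hyS, hx, hy, hxy⟩ := hB
    refine U19_fin r hr h2 S hS hSg x y y hxS hyS (fun h1 => hxy (by rw [h1])) hx hy ?_ ?_
    · intro h1
      apply hxy
      have h3 : x + x = (x + y + (x + y)) - ((y + y) + (y + y)) + (y + y) := by abel
      rw [h3, h1, hA y hyS, sub_zero, zero_add]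
    · exact AddSubgroup.subset_closure (by simp)
  push Not at hB
  apply triv_bd r (r + 4) _ hr (by omega) hmn
  have key : ∃ c : G, c + c = 0 ∧ ∀ s ∈ S, s + s ∈ AddSubgroup.zmultiples c := by
    by_cases hE : ∀ s ∈ S, s + s = 0
    · exact ⟨0, add_zero 0, fun s hs => by rw [hE s hs]; exact AddSubgroup.zero_mem _⟩
    push Not at hE
    obtain ⟨x, hxS, hx⟩ := hE
    refine ⟨x + x, hA x hxS, fun s hs => ?_⟩
    by_cases h3 : s + s = 0
    · rw [h3]
      exact AddSubgroup.zero_mem _
    · rw [hB s hs x hxS h3 hx]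
      exact AddSubgroup.mem_zmultiples _
  obtain ⟨c, hc, hcS⟩ := key
  have h3 := card_two (AddSubgroup.zmultiples c) S (by rw [hSg]; exact sup_top_eq _) hcS
  have h4 : Nat.card (AddSubgroup.zmultiples c) ≤ 2 := by
    rw [Nat.card_zmultiples]
    apply addOrderOf_le_of_nsmul_eq_zero (by norm_num)
    rw [two_nsmul]
    exact hc
  rw [hS] at h3
  obtain ⟨q, rfl⟩ : ∃ q, r = q + 2 := ⟨r - 2, by omega⟩
  rw [Nat.add_sub_cancel]
  rw [pow_add] at h3
  have h5 : Nat.card (AddSubgroup.zmultiples c) * (2 ^ q * 2 ^ 2) ≤ 2 * (2 ^ q * 2 ^ 2) :=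
    Nat.mul_le_mul_right _ h4
  omega

end

end Pool.Agent.SNU
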